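import Pool.Agent.Lib.MP_eac726_al.RG
import Pool.Agent.Lib.MP_eac726_al.GroupK

/-!
# MP_eac726_al: infinite simple `p`-groups in which all `k`-generated subgroups are finite

For every prime `p` and every `k` there is an infinite simple group in which the order of every
element is a power of `p` and in which any `k` elements generate a finite subgroup.
-/

set_option autoImplicit false

namespace Pool.Agent.Results.MP_eac726_al.SimpleKFinite

theorem result (p : ℕ) (hp : p.Prime) (k : ℕ) :
    ∃ (G : Type) (_ : Group G), Infinite G ∧ IsSimpleGroup G ∧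
      (∀ g : G, ∃ n : ℕ, orderOf g = p ^ n) ∧
      (∀ s : Fin k → G, Finite (Subgroup.closure (Set.range s))) ∧
      (∀ a b : G, Finite (Subgroup.closure ({a, b} : Set G))) := by
  obtain ⟨B, _, hB, A, x, hxA, hx0, n, a, c, b, hx, hnil⟩ :=
    EAC.exists_ring p hp (9 * (k + 2) + 18) (by omega)
  obtain ⟨G, hG, hinf, hP, hfin, hs⟩ :=
    Pool.Agent.Lib.MP_eac726_al.GP.exists_group_k (k + 2) (le_refl _) p hp B hB A x hxA hx0 n a c b
      hx hnil
  have hle : ∀ T : Set G, (∃ s : Fin (k + 2) → G, T ⊆ Set.range s) →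
      Finite (Subgroup.closure T) := by
    rintro T ⟨s, hT⟩
    exact ((hfin s).subset (SetLike.coe_subset_coe.mpr (Subgroup.closure_mono hT))).to_subtype
  refine ⟨G, hG, hinf, hs, ?_, ?_, ?_⟩
  · have : Fact p.Prime := ⟨hp⟩
    exact fun g => (IsPGroup.iff_orderOf.mp hP) g
  · intro s
    refine hle _ ⟨fun i => if h : (i : ℕ) < k then s ⟨i, h⟩ else 1, ?_⟩
    rintro _ ⟨i, rfl⟩
    refine ⟨⟨i, by omega⟩, ?_⟩
    simp
  · intro u v
    refine hle _ ⟨fun i => if (i : ℕ) = 0 then u else v, ?_⟩
    intro g hg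
    rcases hg with rfl | hg
    · exact ⟨⟨0, by omega⟩, by simp⟩
    · refine ⟨⟨1, by omega⟩, ?_⟩
      rw [Set.mem_singleton_iff] at hg
      simp [hg]

end Pool.Agent.Results.MP_eac726_al.SimpleKFinite
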